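import Pool.Agent.Helper53.FM.Main

set_option autoImplicit false

namespace Pool.Agent.Results.MP_12a1af_nt.MeanBlockMaxima

/-- `rep A n` is the number of ordered pairs `(a, b)` in `A × A` with `a + b = n`. -/
noncomputable def rep (A : Set ℕ) (n : ℕ) : ℕ :=
  ({p : ℕ × ℕ | p.1 ∈ A ∧ p.2 ∈ A ∧ p.1 + p.2 = n} : Set (ℕ × ℕ)).ncard

/-- The largest value of `rep A n` on the dyadic block `2 ^ j ≤ n < 2 ^ (j + 1)`. -/
noncomputable def blockMax (A : Set ℕ) (j : ℕ) : ℕ :=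
  (Finset.Ico (2 ^ j) (2 ^ (j + 1))).sup (rep A)

/-- The number of `j < J` such that some integer `n` with `2 ^ j ≤ n < 2 ^ (j + 1)` is not a sum
of two elements of `A`. -/
noncomputable def badBlocks (A : Set ℕ) (J : ℕ) : ℕ :=
  ({j : ℕ | j < J ∧ ∃ n : ℕ, 2 ^ j ≤ n ∧ n < 2 ^ (j + 1) ∧ ∀ a ∈ A, ∀ b ∈ A, a + b ≠ n} :
    Set ℕ).ncard

/-- There is a basis `A` of order two, `A + A = ℕ`, with `rep A n = O(log n)` whose dyadic block
maxima are `(log x) ^ o(1)` on average: the mean of `max {rep A n : 2 ^ j ≤ n < 2 ^ (j + 1)}` over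
`j < J` is at most `exp (C * √(log J))`. Moreover for every `0 ≤ ρ < 1` the set `A` has a subset
`A'` with `rep A' n ≤ (log n) ^ ρ * exp (C * √(log log n))` for all large `n` such that, for all
large `J`, all but at most `J ^ (1 - ρ) * exp (-√(log J))` of the dyadic blocks `j < J` are
contained in `A' + A'`. -/
theorem result : ∃ (A : Set ℕ) (C : ℝ), (∀ n : ℕ, ∃ x ∈ A, ∃ y ∈ A, x + y = n) ∧
    (∀ j : ℕ, (blockMax A j : ℝ) ≤ C * (j + 1)) ∧
    (∀ J : ℕ, 2 ≤ J →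
      ∑ j ∈ Finset.range J, (blockMax A j : ℝ) ≤ J * Real.exp (C * √(Real.log J))) ∧
    ∀ ρ : ℝ, 0 ≤ ρ → ρ < 1 → ∃ A' : Set ℕ, A' ⊆ A ∧
      (∀ᶠ n : ℕ in Filter.atTop, (rep A' n : ℝ) ≤
        (Real.log n) ^ ρ * Real.exp (C * √(Real.log (Real.log n)))) ∧
      ∀ᶠ J : ℕ in Filter.atTop,
        (badBlocks A' J : ℝ) ≤ (J : ℝ) ^ (1 - ρ) * Real.exp (-√(Real.log J)) := by
  obtain ⟨A, C, h1, h2, h3, h4⟩ := Pool.Agent.Helper53.FM.main_thm
  refine ⟨A, C, h1, h2, h3, ?_⟩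
  intro ρ hρ0 hρ1
  obtain ⟨A', g1, g2, g3⟩ := h4 ρ hρ0 hρ1
  refine ⟨A', g1, g2, g3.mono ?_⟩
  intro J hJ
  refine le_trans (le_of_eq ?_) hJ
  unfold badBlocks Pool.Agent.Helper53.WR.badCount
  rw [← Set.ncard_coe_finset]
  congr 2
  ext j
  simp only [Set.mem_setOf_eq, Finset.coe_filter, Finset.mem_range]
  unfold Pool.Agent.Helper53.WR.CovBlock
  push Not
  rfl

end Pool.Agent.Results.MP_12a1af_nt.MeanBlockMaxima
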